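import Pool.Agent.Q110.EO.Sat

/-!
# Minimal-label saturation with an isolated minimal edge: `sat_m(n, e₀ + G) = O(1)`

Full answer to Q1 of MP_5ab958_co: for every edge-ordered graph `G` the function
`sat_m(n, e₀ + G)` is bounded. The definitions (`EOG`, `Contains`, `EOG.addMin`, `Saturated`,
`satM`, `EOG.e0`) are in `Pool/Agent/Q110/EO/Defs.lean`.
-/

set_option autoImplicit false

namespace Pool.Agent.Results.MP_5ab958_co.BoundedSaturation

open Pool.Agent.Q110.EO

theorem main (V : Type) [Fintype V] (F : EOG V) (a b : V) (hab : F.graph.Adj a b)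
    (hiso : ∀ w, (F.graph.Adj a w → w = b) ∧ (F.graph.Adj b w → w = a))
    (hmin : ∀ e ∈ F.graph.edgeSet, e ≠ s(a, b) → F.lab s(a, b) < F.lab e)
    (n : ℕ) (hn : 3 * Fintype.card V ≤ n) :
    (∃ H : EOG (Fin n), Saturated F H ∧ H.graph.edgeSet.ncard = satM n F) ∧
      satM n F ≤ (3 * Fintype.card V + 1).choose 2 := by
  have h := satM_le F a b hab hiso hmin hn
  rw [Sym2.card, Fintype.card_prod, Fintype.card_fin, mul_comm (Fintype.card V) 3] at h
  exact h

/-- **Q1 has a positive answer.** (1) For every finite edge-ordered graph `G` (on a finite vertex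
type `W`) there are `C` and `n₀` such that for all `n ≥ n₀` the minimum in the definition of
`sat_m(n, e₀ + G)` is attained and is at most `C`. (2) The same for every edge-ordered graph `F`
whose edge `ab` of smallest label is isolated, with `n₀ = 3 |V(F)|` and
`C = (3 |V(F)| + 1).choose 2`. -/
theorem result :
    (∀ (W : Type) [Fintype W] (G : EOG W) (x : ℝ) (hx : ∀ e ∈ G.graph.edgeSet, x < G.lab e),
      ∃ C n₀ : ℕ, ∀ n ≥ n₀,
        (∃ H : EOG (Fin n), Saturated (G.e0 x hx) H ∧
          H.graph.edgeSet.ncard = satM n (G.e0 x hx)) ∧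
        satM n (G.e0 x hx) ≤ C) ∧
    (∀ (V : Type) [Fintype V] (F : EOG V) (a b : V), F.graph.Adj a b →
      (∀ w, (F.graph.Adj a w → w = b) ∧ (F.graph.Adj b w → w = a)) →
      (∀ e ∈ F.graph.edgeSet, e ≠ s(a, b) → F.lab s(a, b) < F.lab e) →
      ∀ n ≥ 3 * Fintype.card V,
        (∃ H : EOG (Fin n), Saturated F H ∧ H.graph.edgeSet.ncard = satM n F) ∧
        satM n F ≤ (3 * Fintype.card V + 1).choose 2) := by
  refine ⟨?_, fun V _ F a b h1 h2 h3 n hn => main V F a b h1 h2 h3 n hn⟩
  intro W _ G x hx
  refine ⟨(3 * Fintype.card (W ⊕ Fin 2) + 1).choose 2, 3 * Fintype.card (W ⊕ Fin 2), ?_⟩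
  intro n hn
  refine main (W ⊕ Fin 2) (G.e0 x hx) (Sum.inr 0) (Sum.inr 1) ?_ ?_ ?_ n hn
  · show (G.graph ⊕g (⊤ : SimpleGraph (Fin 2))).Adj (Sum.inr 0) (Sum.inr 1)
    simp
  · intro w
    constructor
    · intro h
      change (G.graph ⊕g (⊤ : SimpleGraph (Fin 2))).Adj (Sum.inr 0) w at h
      rcases w with w | w
      · simp at h
      · have h2 : (0 : Fin 2) ≠ w := by simpa using h
        fin_cases w
        · exact absurd rfl h2
        · rfl
    · intro h
      change (G.graph ⊕g (⊤ : SimpleGraph (Fin 2))).Adj (Sum.inr 1) w at h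
      rcases w with w | w
      · simp at h
      · have h2 : (1 : Fin 2) ≠ w := by simpa using h
        fin_cases w
        · rfl
        · exact absurd rfl h2
  · intro e he hne
    have hinj : Function.Injective (Sym2.map (Sum.inl : W → W ⊕ Fin 2)) :=
      Sym2.map.injective Sum.inl_injective
    have h1 : (G.e0 x hx).lab s(Sum.inr 0, Sum.inr 1) = x := by
      show Function.extend (Sym2.map Sum.inl) G.lab (fun _ => x) _ = x
      rw [Function.extend_apply']
      rintro ⟨e', he'⟩
      induction e' using Sym2.ind with | _ p q => ?_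
      simp at he'
    rw [h1]
    induction e using Sym2.ind with | _ u v => ?_
    change (G.graph ⊕g (⊤ : SimpleGraph (Fin 2))).Adj u v at he
    rcases u with u | u <;> rcases v with v | v
    · have h2 : (G.e0 x hx).lab s(Sum.inl u, Sum.inl v) = G.lab s(u, v) := by
        show Function.extend (Sym2.map Sum.inl) G.lab (fun _ => x) _ = _
        have : s((Sum.inl u : W ⊕ Fin 2), Sum.inl v) = Sym2.map Sum.inl s(u, v) := by simp
        rw [this, hinj.extend_apply]
      rw [h2]
      exact hx _ (by simpa using he)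
    · simp at he
    · simp at he
    · exfalso
      apply hne
      have h2 : u ≠ v := by simpa using he
      fin_cases u <;> fin_cases v <;> simp_all

end Pool.Agent.Results.MP_5ab958_co.BoundedSaturation
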